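import Pool.Agent.Helper62.MU.St

set_option autoImplicit false

/-! Module GD of project MU (MP_ae3a4d_gt): derivatives. -/

open MeasureTheory Metric Set Filter Topology Polynomial

namespace Pool.Agent.Helper40.MU

open Pool.Agent.Helper62.MU Pool.Agent.Helper62.Mink

theorem sg_pos (x : ℝ) : 0 < sg x := by
  unfold sg
  positivity

theorem sg_sq (x : ℝ) : sg x ^ 2 = 1 + x ^ 2 := by
  unfold sg
  rw [Real.sq_sqrt (by positivity)]

theorem hasDerivAt_sg (x : ℝ) : HasDerivAt sg (x / sg x) x := by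
  have h1 : HasDerivAt (fun y : ℝ => 1 + y ^ 2) (2 * x) x := by
    simpa using (hasDerivAt_pow 2 x).const_add 1
  have h2 := h1.sqrt (by positivity)
  have h3 : 2 * x / (2 * √(1 + x ^ 2)) = x / sg x := by
    unfold sg
    rw [mul_div_mul_left _ _ (by norm_num)]
  rw [h3] at h2
  exact h2

theorem hasDerivAt_ta (x : ℝ) : HasDerivAt (fun y => y / sg y) (1 / sg x ^ 3) x := by
  have hS := sg_pos x
  have hq := sg_sq x
  have h1 := (hasDerivAt_id x).div (hasDerivAt_sg x) hS.ne'
  refine HasDerivAt.congr_deriv h1 ?_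
  simp only [id]
  have h2 : x ^ 2 = sg x ^ 2 - 1 := by linarith
  field_simp
  linear_combination (-1 : ℝ) * h2

theorem hasDerivAt_sgpow (k : ℕ) (x : ℝ) :
    HasDerivAt (fun y => 1 / sg y ^ k) (-(k * x) / sg x ^ (k + 2)) x := by
  have hS := sg_pos x
  have h1 := ((hasDerivAt_sg x).pow k).inv (pow_pos hS k).ne'
  have h0 : (fun y => 1 / sg y ^ k) = fun y => (sg y ^ k)⁻¹ := by
    funext y
    rw [one_div]
  have h2 : HasDerivAt (fun y => 1 / sg y ^ k)
      (-(k * sg x ^ (k - 1) * (x / sg x)) / (sg x ^ k) ^ 2) x := by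
    rw [h0]
    exact h1
  refine HasDerivAt.congr_deriv h2 ?_
  rcases Nat.eq_zero_or_pos k with h | h
  · subst h
    simp
  · obtain ⟨j, rfl⟩ : ∃ j, k = j + 1 := ⟨k - 1, by omega⟩
    simp only [Nat.add_sub_cancel]
    rw [div_eq_div_iff (by positivity) (by positivity)]
    field_simp
    ring

theorem hasDerivAt_ev (P : ℝ[X]) (x : ℝ) :
    HasDerivAt (fun y => P.eval (y / sg y)) (P.derivative.eval (x / sg x) * (1 / sg x ^ 3)) x :=
  HasDerivAt.comp (h₂ := fun t => P.eval t) (h := fun y => y / sg y) x (P.hasDerivAt (x / sg x))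
    (hasDerivAt_ta x)

theorem sg_cont : Continuous sg := by
  unfold sg
  fun_prop

theorem ta_cont : Continuous (fun y => y / sg y) :=
  continuous_id.div sg_cont (fun x => (sg_pos x).ne')

theorem ev_cont (P : ℝ[X]) : Continuous (fun y => P.eval (y / sg y)) :=
  P.continuous.comp ta_cont

theorem Aa_cont (m : ℕ) (p : ℝ[X]) : Continuous (Aa m p) := by
  unfold Aa
  exact ((ev_cont p).sub (ta_cont.mul (ev_cont _))).div (sg_cont.pow _)
    (fun x => (pow_pos (sg_pos x) _).ne')

theorem hasDerivAt_Uu (m : ℕ) (p : ℝ[X]) (x : ℝ) : HasDerivAt (Uu m p) (x ^ 2 * Aa m p x) x := by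
  have h1 : Continuous (fun y => y ^ 2 * Aa m p y) := (continuous_id.pow 2).mul (Aa_cont m p)
  exact (h1.integral_hasStrictDerivAt 0 x).hasDerivAt

theorem hasDerivAt_Th (m : ℕ) (p : ℝ[X]) (x : ℝ) :
    HasDerivAt (Th m p) (x ^ 2 * p.eval (x / sg x) / sg x ^ (m + 3)) x := by
  have h1 : Continuous (fun y : ℝ => y ^ 2 * p.eval (y / sg y) / sg y ^ (m + 3)) :=
    ((continuous_id.pow 2).mul (ev_cont p)).div (sg_cont.pow _) (fun x => (pow_pos (sg_pos x) _).ne')
  exact (h1.integral_hasStrictDerivAt 0 x).hasDerivAt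

theorem hasDerivAt_xi (m : ℕ) (x : ℝ) :
    HasDerivAt (xi m) (-(((m : ℝ) + 2) * m / 2) * x ^ 3 / sg x ^ (m + 4)) x := by
  have hS := sg_pos x
  have hq := sg_sq x
  have h1 : HasDerivAt (fun y : ℝ => 1 + ((m : ℝ) + 2) / 2 * y ^ 2) (((m : ℝ) + 2) * x) x := by
    have := ((hasDerivAt_pow 2 x).const_mul (((m : ℝ) + 2) / 2)).const_add 1
    refine HasDerivAt.congr_deriv this ?_
    push_cast
    ring
  have h2 := h1.mul (hasDerivAt_sgpow (m + 2) x)
  have h3 : xi m = fun y => (1 + ((m : ℝ) + 2) / 2 * y ^ 2) * (1 / sg y ^ (m + 2)) := by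
    funext y
    unfold xi
    ring
  rw [h3]
  refine HasDerivAt.congr_deriv h2 ?_
  push_cast
  have h4 : x ^ 2 = sg x ^ 2 - 1 := by linarith
  generalize sg x = S at *
  have e1 : S ^ (m + 4) = S ^ m * S ^ 4 := pow_add _ _ _
  have e2 : S ^ (m + 2) = S ^ m * S ^ 2 := pow_add _ _ _
  rw [e1, e2]
  field_simp
  linear_combination (-2 : ℝ) * x * h4

theorem hasDerivAt_gg (p : ℝ[X]) (x : ℝ) : HasDerivAt (gg p) (g1 p x) x := by
  have hS := sg_pos x
  have h1 := (hasDerivAt_sg x).mul (hasDerivAt_ev p x)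
  have h2 : gg p = fun y => sg y * p.eval (y / sg y) := by
    funext y; rfl
  rw [h2]
  refine HasDerivAt.congr_deriv h1 ?_
  unfold g1
  field_simp

theorem hasDerivAt_g1 (p : ℝ[X]) (x : ℝ) : HasDerivAt (g1 p)
    ((p.eval (x / sg x) - x / sg x * p.derivative.eval (x / sg x)) / sg x ^ 3 +
        p.derivative.derivative.eval (x / sg x) / sg x ^ 5) x := by
  have hS := sg_pos x
  have h1 := ((hasDerivAt_ta x).mul (hasDerivAt_ev p x)).add
    ((hasDerivAt_ev p.derivative x).mul (hasDerivAt_sgpow 2 x))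
  have h2 : g1 p = fun y => y / sg y * p.eval (y / sg y) +
      p.derivative.eval (y / sg y) * (1 / sg y ^ 2) := by
    funext y
    unfold g1
    ring
  rw [h2]
  refine HasDerivAt.congr_deriv h1 ?_
  push_cast
  field_simp
  ring

theorem hasDerivAt_del (m : ℕ) (p : ℝ[X]) (x : ℝ) : HasDerivAt (del m p)
    (xi m x * ((p.eval (x / sg x) - x / sg x * p.derivative.eval (x / sg x)) / sg x ^ 3 +
        p.derivative.derivative.eval (x / sg x) / sg x ^ 5) +
      ((m : ℝ) + 2) * m / 2 * (x ^ 2 * Aa m p x / sg x ^ 2)) x := by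
  have hS := sg_pos x
  have hq := sg_sq x
  have h1 := ((hasDerivAt_xi m x).mul (hasDerivAt_g1 p x)).add
    ((hasDerivAt_Th m p x).const_mul (((m : ℝ) + 2) * m / 2))
  have h2 : del m p = fun y => xi m y * g1 p y + ((m : ℝ) + 2) * m / 2 * Th m p y := by
    funext y; rfl
  rw [h2]
  refine HasDerivAt.congr_deriv h1 ?_
  unfold Aa g1
  have h4 : x ^ 2 = sg x ^ 2 - 1 := by linarith
  generalize xi m x = ξ
  generalize p.eval (x / sg x) = P0
  generalize p.derivative.eval (x / sg x) = P1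
  generalize p.derivative.derivative.eval (x / sg x) = P2
  generalize sg x = S at *
  have e1 : S ^ (m + 4) = S ^ m * S ^ 4 := pow_add _ _ _
  have e3 : S ^ (m + 3) = S ^ m * S ^ 3 := pow_add _ _ _
  rw [e1, e3]
  clear h1 h2 e1 e3
  have hw : 0 < S ^ m := pow_pos hS m
  generalize S ^ m = w at *
  generalize (m : ℝ) = M at *
  field_simp
  grind

theorem hasDerivAt_Aa (m : ℕ) (p : ℝ[X]) (x : ℝ) : HasDerivAt (Aa m p)
    (-(x / sg x * p.derivative.derivative.eval (x / sg x)) / sg x ^ (m + 6) -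
      ((m : ℝ) + 3) * x * (p.eval (x / sg x) - x / sg x * p.derivative.eval (x / sg x)) /
        sg x ^ (m + 5)) x := by
  have hS := sg_pos x
  have h1 := ((hasDerivAt_ev p x).sub ((hasDerivAt_ta x).mul (hasDerivAt_ev p.derivative x))).mul
    (hasDerivAt_sgpow (m + 3) x)
  have h2 : Aa m p = fun y => (p.eval (y / sg y) - y / sg y * p.derivative.eval (y / sg y)) *
      (1 / sg y ^ (m + 3)) := by
    funext y
    unfold Aa
    ring
  rw [h2]
  refine HasDerivAt.congr_deriv h1 ?_
  push_cast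
  simp only [Pi.sub_apply, Pi.mul_apply]
  generalize p.eval (x / sg x) = P0
  generalize p.derivative.eval (x / sg x) = P1
  generalize p.derivative.derivative.eval (x / sg x) = P2
  generalize sg x = S at *
  have e1 : S ^ (m + 6) = S ^ m * S ^ 6 := pow_add _ _ _
  have e2 : S ^ (m + 5) = S ^ m * S ^ 5 := pow_add _ _ _
  have e3 : S ^ (m + 3) = S ^ m * S ^ 3 := pow_add _ _ _
  rw [e1, e2, e3]
  have hw : 0 < S ^ m := pow_pos hS m
  generalize S ^ m = w at *
  field_simp
  ring

theorem hGD : StGD := by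
  intro m p x hx
  have hS := sg_pos x
  have hq := sg_sq x
  have h4 : x ^ 2 = sg x ^ 2 - 1 := by linarith
  refine ⟨?_, ?_, hasDerivAt_Uu m p x, hasDerivAt_del m p x⟩
  · have h1 := ((((hasDerivAt_Uu m p x).div (hasDerivAt_id x) hx.ne').const_mul ((m : ℝ) / 2)).add
      ((hasDerivAt_xi m x).mul (hasDerivAt_gg p x))).add
      (((hasDerivAt_id x).mul (hasDerivAt_Th m p x)).const_mul (((m : ℝ) + 2) * m / 2))
    have h2 : gam m p = fun y => (m : ℝ) / 2 * (Uu m p y / id y) + xi m y * gg p y +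
        ((m : ℝ) + 2) * m / 2 * (id y * Th m p y) := by
      funext y; rfl
    rw [h2]
    refine HasDerivAt.congr_deriv h1 ?_
    unfold dgam del gg Aa
    simp only [id]
    generalize xi m x = ξ
    generalize Uu m p x = U
    generalize Th m p x = T
    generalize g1 p x = G1
    generalize p.eval (x / sg x) = P0
    generalize p.derivative.eval (x / sg x) = P1
    generalize sg x = S at *
    have e1 : S ^ (m + 4) = S ^ m * S ^ 4 := pow_add _ _ _
    have e3 : S ^ (m + 3) = S ^ m * S ^ 3 := pow_add _ _ _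
    rw [e1, e3]
    have hw : 0 < S ^ m := pow_pos hS m
    generalize S ^ m = w at *
    field_simp
    ring
  · have h1 := ((((hasDerivAt_id x).mul (hasDerivAt_Aa m p x)).sub
      ((hasDerivAt_Uu m p x).div ((hasDerivAt_id x).pow 2)
        (by simp [hx.ne']))).const_mul ((m : ℝ) / 2)).add (hasDerivAt_del m p x)
    have h2 : dgam m p = fun y => (m : ℝ) / 2 * (id y * Aa m p y - Uu m p y / id y ^ 2) +
        del m p y := by
      funext y; rfl
    rw [h2]
    refine HasDerivAt.congr_deriv h1 ?_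
    unfold Aa Bb xi
    simp only [id, Pi.pow_apply]
    clear h1 h2
    push_cast
    generalize Uu m p x = U
    generalize p.eval (x / sg x) = P0
    generalize p.derivative.eval (x / sg x) = P1
    generalize p.derivative.derivative.eval (x / sg x) = P2
    generalize sg x = S at *
    have e1 : S ^ (m + 6) = S ^ m * S ^ 6 := pow_add _ _ _
    have e2 : S ^ (m + 5) = S ^ m * S ^ 5 := pow_add _ _ _
    have e3 : S ^ (m + 3) = S ^ m * S ^ 3 := pow_add _ _ _
    have e4 : S ^ (m + 2) = S ^ m * S ^ 2 := pow_add _ _ _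
    rw [e1, e2, e3, e4]
    clear e1 e2 e3 e4
    have hw : 0 < S ^ m := pow_pos hS m
    generalize S ^ m = w at *
    generalize (m : ℝ) = M at *
    field_simp
    grind

end Pool.Agent.Helper40.MU
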