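import Pool.Agent.Helper62.MU.St2

set_option autoImplicit false

/-! Module ZA of project MU (MP_ae3a4d_gt): convexity of zonal functions. -/

open MeasureTheory Metric Set Filter Topology Polynomial
open scoped RealInnerProductSpace ContDiff

namespace Pool.Agent.Helper40.MU

open Pool.Agent.Helper62.MU2 Pool.Agent.Helper62.Mink

namespace ZA

theorem d2_nonneg {p : ℝ[X]} (hp : LP p) {a P s : ℝ} (ha : 0 < a) (hb : P ^ 2 + a * s ^ 2 ≤ a)
    (τ : ℝ) : 0 ≤ d2 p a P s τ := by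
  have hr := rr_pos ha τ
  have hr2 := rr_sq ha τ
  have hsum : (P + τ * s) ^ 2 / rr a τ ^ 2 + (s * a - τ * P) ^ 2 / (a * rr a τ ^ 2) ≤ 1 := by
    have h1 : (P + τ * s) ^ 2 / rr a τ ^ 2 + (s * a - τ * P) ^ 2 / (a * rr a τ ^ 2)
        = (P ^ 2 + a * s ^ 2) / a := by
      rw [hr2]
      have h2 : a + τ ^ 2 ≠ 0 := by positivity
      field_simp
      ring
    rw [h1, div_le_one ha]
    exact hb
  unfold d2
  have hY : 0 ≤ (s * a - τ * P) ^ 2 / (a * rr a τ ^ 2) := by positivity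
  rw [← div_pow] at hsum
  generalize (P + τ * s) / rr a τ = t at *
  generalize (s * a - τ * P) ^ 2 / (a * rr a τ ^ 2) = Y at *
  have ht : t ∈ Icc (-1 : ℝ) 1 := by
    have : t ^ 2 ≤ 1 := by linarith
    exact abs_le.1 ((sq_le_one_iff_abs_le_one t).1 this)
  obtain ⟨h1, h2⟩ := hp t ht
  refine mul_nonneg (by positivity) ?_
  rcases le_or_gt 0 (p.derivative.derivative.eval t) with h3 | h3
  · exact add_nonneg h1 (mul_nonneg h3 hY)
  · have h4 : p.derivative.derivative.eval t * (1 - t ^ 2) ≤ p.derivative.derivative.eval t * Y :=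
      mul_le_mul_of_nonpos_left (by linarith) h3.le
    linarith

theorem bessel {n : ℕ} {e p₀ v : E n} (he : ‖e‖ = 1) (hp₀ : p₀ ≠ 0) (hv : ‖v‖ = 1)
    (hpv : (inner ℝ p₀ v : ℝ) = 0) :
    (inner ℝ e p₀ : ℝ) ^ 2 + ‖p₀‖ ^ 2 * (inner ℝ e v : ℝ) ^ 2 ≤ ‖p₀‖ ^ 2 := by
  have hpn : 0 < ‖p₀‖ := norm_pos_iff.2 hp₀
  have ha : 0 < ‖p₀‖ ^ 2 := by positivity
  have hvp : (inner ℝ v p₀ : ℝ) = 0 := by rw [real_inner_comm]; exact hpv
  have hpp : (inner ℝ p₀ p₀ : ℝ) = ‖p₀‖ ^ 2 := by rw [real_inner_self_eq_norm_sq]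
  have hvv : (inner ℝ v v : ℝ) = 1 := by rw [real_inner_self_eq_norm_sq, hv]; norm_num
  have hee : (inner ℝ e e : ℝ) = 1 := by rw [real_inner_self_eq_norm_sq, he]; norm_num
  have h0 : (0 : ℝ) ≤ inner ℝ
      (‖p₀‖ ^ 2 • e - (inner ℝ e p₀ : ℝ) • p₀ - (‖p₀‖ ^ 2 * (inner ℝ e v : ℝ)) • v)
      (‖p₀‖ ^ 2 • e - (inner ℝ e p₀ : ℝ) • p₀ - (‖p₀‖ ^ 2 * (inner ℝ e v : ℝ)) • v) :=
    real_inner_self_nonneg
  simp only [inner_smul_left, inner_smul_right, inner_sub_left, inner_sub_right, hpv, hvp, hpp,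
    hvv, hee, conj_trivial] at h0
  rw [real_inner_comm e p₀, real_inner_comm e v] at h0
  generalize (inner ℝ e p₀ : ℝ) = P at *
  generalize (inner ℝ e v : ℝ) = s at *
  generalize ‖p₀‖ ^ 2 = a at *
  have h1 : 0 ≤ a * (a - P ^ 2 - a * s ^ 2) := by nlinarith
  have h2 := nonneg_of_mul_nonneg_right h1 ha
  linarith

theorem zf_line {n : ℕ} (e : E n) (p : ℝ[X]) {p₀ v : E n} (hv : ‖v‖ = 1)
    (hpv : (inner ℝ p₀ v : ℝ) = 0) (τ : ℝ) :
    zf e (fun t => p.eval t) (p₀ + τ • v) =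
      rr (‖p₀‖ ^ 2) τ * p.eval ((inner ℝ e p₀ + τ * inner ℝ e v) / rr (‖p₀‖ ^ 2) τ) := by
  have hn : ‖p₀ + τ • v‖ = rr (‖p₀‖ ^ 2) τ := by
    unfold rr
    rw [eq_comm, Real.sqrt_eq_iff_mul_self_eq (by positivity) (norm_nonneg _), ← sq,
      norm_add_sq_real, inner_smul_right, hpv, norm_smul, hv, Real.norm_eq_abs, mul_one, sq_abs]
    ring
  unfold zf
  simp only
  rw [hn, inner_add_right, inner_smul_right]

theorem zf_line_convex {n : ℕ} {e : E n} (he : ‖e‖ = 1) {p : ℝ[X]} (hp : LP p) {p₀ v : E n}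
    (hp₀ : p₀ ≠ 0) (hv : ‖v‖ = 1) (hpv : (inner ℝ p₀ v : ℝ) = 0) :
    ConvexOn ℝ univ (fun τ : ℝ => zf e (fun t => p.eval t) (p₀ + τ • v)) ∧
      Continuous (fun τ : ℝ => zf e (fun t => p.eval t) (p₀ + τ • v)) := by
  have hpn : 0 < ‖p₀‖ := norm_pos_iff.2 hp₀
  have ha : 0 < ‖p₀‖ ^ 2 := by positivity
  have e0 : (fun τ : ℝ => zf e (fun t => p.eval t) (p₀ + τ • v)) = fun τ =>
      rr (‖p₀‖ ^ 2) τ * p.eval ((inner ℝ e p₀ + τ * inner ℝ e v) / rr (‖p₀‖ ^ 2) τ) := by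
    funext τ
    exact zf_line e p hv hpv τ
  rw [e0]
  have hb := bessel he hp₀ hv hpv
  have D1 := hasDerivAt_d0 ha p (inner ℝ e p₀) (inner ℝ e v)
  have D2 := hasDerivAt_d1 ha p (inner ℝ e p₀) (inner ℝ e v)
  refine ⟨?_, continuous_iff_continuousAt.2 fun τ => (D1 τ).continuousAt⟩
  have hd1 : deriv (fun τ => rr (‖p₀‖ ^ 2) τ *
      p.eval ((inner ℝ e p₀ + τ * inner ℝ e v) / rr (‖p₀‖ ^ 2) τ)) = fun τ =>
      d1 p (‖p₀‖ ^ 2) (inner ℝ e p₀) (inner ℝ e v) τ := funext fun τ => (D1 τ).deriv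
  refine convexOn_of_deriv2_nonneg' convex_univ
    (fun τ _ => (D1 τ).differentiableAt.differentiableWithinAt) ?_ ?_
  · rw [hd1]
    exact fun τ _ => (D2 τ).differentiableAt.differentiableWithinAt
  · intro τ _
    rw [Function.iterate_succ, Function.comp_apply, Function.iterate_one, hd1, (D2 τ).deriv]
    exact d2_nonneg hp ha hb τ

theorem add_le_of_line {n : ℕ} (hn : 2 ≤ n) (G : E n → ℝ)
    (hhom : ∀ c : ℝ, 0 ≤ c → ∀ z, G (c • z) = c * G z)
    (hline : ∀ p₀ v : E n, p₀ ≠ 0 → ‖v‖ = 1 → (inner ℝ p₀ v : ℝ) = 0 →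
      ConvexOn ℝ univ (fun τ : ℝ => G (p₀ + τ • v)) ∧ Continuous (fun τ : ℝ => G (p₀ + τ • v)))
    (x y : E n) : G (x + y) ≤ G x + G y := by
  -- the independent case
  have hind : ∀ x y : E n, x ≠ y → (∀ p₀ v : E n, y - x = ‖y - x‖ • v →
      p₀ = x - (inner ℝ x v : ℝ) • v → p₀ ≠ 0) → G (x + y) ≤ G x + G y := by
    intro x y hxy hp0
    have hne : y - x ≠ 0 := sub_ne_zero.2 (Ne.symm hxy)
    have hnn : ‖y - x‖ ≠ 0 := norm_ne_zero_iff.2 hne
    set v : E n := ‖y - x‖⁻¹ • (y - x) with hv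
    have hv1 : ‖v‖ = 1 := by
      rw [hv, norm_smul, norm_inv, norm_norm, inv_mul_cancel₀ hnn]
    have hyx : y - x = ‖y - x‖ • v := by
      rw [hv, smul_smul, mul_inv_cancel₀ hnn, one_smul]
    set p₀ : E n := x - (inner ℝ x v : ℝ) • v with hp₀
    have hpne := hp0 p₀ v hyx hp₀
    have hpv : (inner ℝ p₀ v : ℝ) = 0 := by
      rw [hp₀, inner_sub_left, inner_smul_left, real_inner_self_eq_norm_sq, hv1]
      simp
    obtain ⟨hconv, -⟩ := hline p₀ v hpne hv1 hpv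
    have hx : p₀ + (inner ℝ x v : ℝ) • v = x := by rw [hp₀]; abel
    have hy : p₀ + ((inner ℝ x v : ℝ) + ‖y - x‖) • v = y := by
      rw [add_smul, ← hyx, ← add_assoc, hx]; abel
    have h1 := hconv.2 (mem_univ (inner ℝ x v : ℝ)) (mem_univ ((inner ℝ x v : ℝ) + ‖y - x‖))
      (by norm_num : (0:ℝ) ≤ 1/2) (by norm_num : (0:ℝ) ≤ 1/2) (by norm_num)
    simp only [smul_eq_mul] at h1
    rw [hx, hy] at h1
    have h2 : p₀ + (1 / 2 * (inner ℝ x v : ℝ) + 1 / 2 * ((inner ℝ x v : ℝ) + ‖y - x‖)) • v =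
        (1 / 2 : ℝ) • (x + y) := by
      have h3 : (1 / 2 : ℝ) • (x + y) = (1 / 2 : ℝ) • (p₀ + (inner ℝ x v : ℝ) • v) +
          (1 / 2 : ℝ) • (p₀ + ((inner ℝ x v : ℝ) + ‖y - x‖) • v) := by
        rw [hx, hy, smul_add]
      rw [h3]
      module
    rw [h2, hhom _ (by norm_num)] at h1
    linarith
  -- x and -x
  have hpm : ∀ x : E n, x ≠ 0 → 0 ≤ G x + G (-x) := by
    intro x hx
    -- a unit vector orthogonal to x
    obtain ⟨v, hv1, hxv⟩ : ∃ v : E n, ‖v‖ = 1 ∧ (inner ℝ x v : ℝ) = 0 := by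
      have hfin : Module.finrank ℝ (E n) = n := by simp
      have hlt : Module.finrank ℝ (ℝ ∙ x) < Module.finrank ℝ (E n) := by
        rw [finrank_span_singleton hx, hfin]; omega
      have hortho : (ℝ ∙ x)ᗮ ≠ ⊥ := by
        intro hbot
        have := Submodule.finrank_add_finrank_orthogonal (ℝ ∙ x)
        rw [hbot, finrank_bot, add_zero] at this
        omega
      obtain ⟨z, hz, hz0⟩ := Submodule.exists_mem_ne_zero_of_ne_bot hortho
      have hzn : ‖z‖ ≠ 0 := norm_ne_zero_iff.2 hz0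
      refine ⟨‖z‖⁻¹ • z, ?_, ?_⟩
      · rw [norm_smul, norm_inv, norm_norm, inv_mul_cancel₀ hzn]
      · rw [inner_smul_right, (Submodule.mem_orthogonal _ _).1 hz x
          (Submodule.mem_span_singleton_self x), mul_zero]
    have hxv' : (inner ℝ (-x) v : ℝ) = 0 := by rw [inner_neg_left, hxv, neg_zero]
    obtain ⟨-, c1⟩ := hline x v hx hv1 hxv
    obtain ⟨-, c2⟩ := hline (-x) v (neg_ne_zero.2 hx) hv1 hxv'
    have hineq : ∀ ε : ℝ, 0 < ε → 2 * ε * G v ≤ G (x + ε • v) + G (-x + ε • v) := by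
      intro ε hε
      have h1 : (x + ε • v) + (-x + ε • v) = (2 * ε) • v := by module
      have h2 := hind (x + ε • v) (-x + ε • v) ?_ ?_
      · rw [h1, hhom _ (by positivity)] at h2
        exact h2
      · intro h
        have h3 : x = -x := add_right_cancel h
        have h4 : (2 : ℝ) • x = 0 := by
          rw [two_smul]; nth_rewrite 2 [h3]; simp
        exact hx ((smul_eq_zero.1 h4).resolve_left (by norm_num))
      · intro p₀ v' hv' hp₀ hp0
        -- v' is parallel to x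
        have h5 : -x + ε • v - (x + ε • v) = (-2 : ℝ) • x := by module
        rw [h5] at hv'
        have h6 : ‖(-2 : ℝ) • x‖ ≠ 0 := norm_ne_zero_iff.2 (smul_ne_zero (by norm_num) hx)
        have h7 : v' = (‖(-2 : ℝ) • x‖⁻¹ * (-2)) • x := by
          have h71 : (‖(-2 : ℝ) • x‖⁻¹ * (-2)) • x = ‖(-2 : ℝ) • x‖⁻¹ • ((-2 : ℝ) • x) :=
            mul_smul _ _ _
          have h72 : ‖(-2 : ℝ) • x‖⁻¹ • ((-2 : ℝ) • x)
              = ‖(-2 : ℝ) • x‖⁻¹ • (‖(-2 : ℝ) • x‖ • v') :=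
            congrArg (fun z => ‖(-2 : ℝ) • x‖⁻¹ • z) hv'
          rw [h71, h72, smul_smul, inv_mul_cancel₀ h6, one_smul]
        rw [hp0, eq_comm, sub_eq_zero] at hp₀
        have h8 : (inner ℝ (x + ε • v) v : ℝ) = ε := by
          rw [inner_add_left, inner_smul_left, hxv, real_inner_self_eq_norm_sq, hv1]; simp
        have h9 : (inner ℝ (x + ε • v) v : ℝ) = 0 := by
          rw [hp₀, h7, inner_smul_left, inner_smul_left, hxv]; simp
        rw [h8] at h9
        exact hε.ne' h9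
    have hlim1 : Filter.Tendsto (fun ε : ℝ => G (x + ε • v) + G (-x + ε • v))
        (nhdsWithin 0 (Ioi 0)) (nhds (G x + G (-x))) := by
      have : Filter.Tendsto (fun ε : ℝ => G (x + ε • v) + G (-x + ε • v)) (nhds 0)
          (nhds (G (x + (0:ℝ) • v) + G (-x + (0:ℝ) • v))) := (c1.add c2).tendsto 0
      rw [zero_smul, add_zero, add_zero] at this
      exact this.mono_left nhdsWithin_le_nhds
    have hlim2 : Filter.Tendsto (fun ε : ℝ => 2 * ε * G v) (nhdsWithin 0 (Ioi 0)) (nhds 0) := by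
      have : Filter.Tendsto (fun ε : ℝ => 2 * ε * G v) (nhds 0) (nhds (2 * 0 * G v)) :=
        (Continuous.tendsto (by fun_prop) 0)
      rw [mul_zero, zero_mul] at this
      exact this.mono_left nhdsWithin_le_nhds
    refine le_of_tendsto_of_tendsto hlim2 hlim1 ?_
    filter_upwards [self_mem_nhdsWithin] with ε hε using hineq ε hε
  have hzero : G 0 = 0 := by
    have := hhom 0 le_rfl 0
    rw [zero_smul, zero_mul] at this
    exact this
  -- general case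
  by_cases hx : x = 0
  · rw [hx, zero_add, hzero, zero_add]
  by_cases hdep : ∃ c : ℝ, y = c • x
  · obtain ⟨c, rfl⟩ := hdep
    rcases le_or_gt 0 c with hc | hc
    · have h1 : x + c • x = (1 + c) • x := by module
      rw [h1, hhom _ (by linarith), hhom _ hc]
      linarith
    · have h2 : c • x = (-c) • (-x) := by module
      rw [h2, hhom (-c) (by linarith)]
      have h3 := hpm x hx
      rcases le_or_gt (-c) 1 with h4 | h4
      · have h5 : x + (-c) • (-x) = (1 + c) • x := by module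
        rw [h5, hhom _ (by linarith)]
        nlinarith
      · have h5 : x + (-c) • (-x) = (-c - 1) • (-x) := by module
        rw [h5, hhom _ (by linarith)]
        nlinarith
  · refine hind x y ?_ ?_
    · intro h
      exact hdep ⟨1, by rw [h, one_smul]⟩
    · intro p₀ v hv hp₀ hp0
      rw [hp0, eq_comm, sub_eq_zero] at hp₀
      -- x = <x,v> v, y = x + |y-x| v
      set k : ℝ := inner ℝ x v with hk
      have hk0 : k ≠ 0 := by
        intro h
        rw [h, zero_smul] at hp₀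
        exact hx hp₀
      apply hdep
      refine ⟨(k + ‖y - x‖) * k⁻¹, ?_⟩
      have h1 : y = x + ‖y - x‖ • v := by rw [← hv]; abel
      have h2 : v = k⁻¹ • x := by
        rw [hp₀, smul_smul, inv_mul_cancel₀ hk0, one_smul]
      have h3 : (k + ‖y - x‖) * k⁻¹ = 1 + ‖y - x‖ * k⁻¹ := by field_simp
      rw [h3, add_smul, one_smul, mul_smul, ← h2]
      exact h1

theorem zf_hom {n : ℕ} (e : E n) (g : ℝ → ℝ) (c : ℝ) (hc : 0 ≤ c) (z : E n) :
    zf e g (c • z) = c * zf e g z := by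
  unfold zf
  rcases hc.eq_or_lt with rfl | hc
  · simp
  · rw [norm_smul, Real.norm_eq_abs, abs_of_pos hc, inner_smul_right,
      mul_div_mul_left _ _ hc.ne']
    ring

theorem zf_smooth {n : ℕ} (e : E n) (p : ℝ[X]) :
    ContDiffOn ℝ ∞ (zf e (fun t => p.eval t)) {0}ᶜ := by
  intro x hx
  have hx0 : x ≠ 0 := hx
  have h1 : ContDiffAt ℝ ∞ (fun w : E n => ‖w‖) x := contDiffAt_norm ℝ hx0
  have h2 : ContDiffAt ℝ ∞ (fun w : E n => (inner ℝ e w : ℝ)) x :=
    (contDiff_const.inner ℝ contDiff_id).contDiffAt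
  have h3 : ContDiffAt ℝ ∞ (fun w : E n => (inner ℝ e w : ℝ) / ‖w‖) x :=
    h2.div h1 (norm_ne_zero_iff.2 hx0)
  have h4 : ContDiff ℝ ∞ (fun t : ℝ => p.eval t) := by
    simpa using p.contDiff_aeval (𝕜 := ℝ) ∞
  exact (h1.mul (h4.contDiffAt.comp x h3)).contDiffWithinAt

end ZA

theorem hZA : StZA := by
  intro n e p hn he hp
  refine ⟨⟨fun c hc x => ZA.zf_hom e _ c hc x, fun x y => ?_⟩, ZA.zf_smooth e p⟩
  exact ZA.add_le_of_line hn _ (fun c hc z => ZA.zf_hom e _ c hc z)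
    (fun p₀ v h1 h2 h3 => ZA.zf_line_convex he hp h1 h2 h3) x y

end Pool.Agent.Helper40.MU
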